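import Mathlib

set_option autoImplicit false

/-! # A member of `q₁ + b q₂` with few prime factors of medium size -/

namespace Pool.Agent.H661.RG

open Finset

lemma count_le {q₁ q₂ B p : ℕ} (h : Nat.Coprime q₁ q₂) (hp : p.Prime) (hpB : p ≤ B) :
    (((Icc 1 B).filter fun b => p ∣ q₁ + b * q₂).card : ℝ) ≤ 2 * B / p := by
  have hp0 : 0 < p := hp.pos
  have h1 : ((Icc 1 B).filter fun b => p ∣ q₁ + b * q₂).card ≤ B / p + 1 := by
    rw [← card_range (B / p + 1)]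
    refine card_le_card_of_injOn (fun b => b / p) ?_ ?_
    · intro b hb
      simp only [coe_filter, mem_Icc, Set.mem_ofPred_eq] at hb
      simp only [coe_range, Set.mem_Iio]
      have := Nat.div_le_div_right (c := p) hb.1.2
      omega
    · intro b hb b' hb' hbb
      simp only [coe_filter, mem_Icc, Set.mem_ofPred_eq] at hb hb'
      have hbb' : b / p = b' / p := hbb
      have hq : Nat.Coprime p q₂ := by
        rw [Nat.Prime.coprime_iff_not_dvd hp]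
        intro hd
        have h2 : p ∣ q₁ := (Nat.dvd_add_left (Dvd.dvd.mul_left hd b)).1 hb.2
        exact hp.one_lt.ne' (Nat.dvd_one.1 (h ▸ Nat.dvd_gcd h2 hd))
      have h3 : (q₁ + b * q₂) ≡ (q₁ + b' * q₂) [MOD p] :=
        ((Nat.modEq_zero_iff_dvd.2 hb.2).trans (Nat.modEq_zero_iff_dvd.2 hb'.2).symm)
      have h4 : b * q₂ ≡ b' * q₂ [MOD p] := Nat.ModEq.add_left_cancel' q₁ h3
      have h5 : b ≡ b' [MOD p] := Nat.ModEq.cancel_right_of_coprime hq h4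
      have h6 : b % p = b' % p := h5
      have h7 := Nat.div_add_mod b p
      have h8 := Nat.div_add_mod b' p
      rw [← h7, ← h8, hbb', h6]
  have hp' : (0 : ℝ) < p := by exact_mod_cast hp0
  rw [le_div_iff₀ hp']
  have h2 : ((Icc 1 B).filter fun b => p ∣ q₁ + b * q₂).card * p ≤ 2 * B := by
    calc _ ≤ (B / p + 1) * p := Nat.mul_le_mul_right _ h1
      _ = B / p * p + p := by ring
      _ ≤ B + B := Nat.add_le_add (Nat.div_mul_le_self _ _) hpB
      _ = 2 * B := by ring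
  exact_mod_cast h2

/-- the weight -/
noncomputable def w (N p : ℕ) : ℝ := 1 / p + if N < p then (N : ℝ) / p else 0

lemma w_nonneg (N p : ℕ) : 0 ≤ w N p := by
  unfold w
  split_ifs <;> positivity

lemma sum_sq {N M : ℕ} (hN : 1 ≤ N) : ∑ i ∈ Ioc N M, ((i : ℝ) ^ 2)⁻¹ ≤ (N : ℝ)⁻¹ := by
  rcases le_total N M with h | h
  · have := sum_Ioc_inv_sq_le_sub (α := ℝ) (k := N) (n := M) (by omega) h
    have h2 : (0 : ℝ) ≤ (M : ℝ)⁻¹ := by positivity
    linarith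
  · rw [Ioc_eq_empty_of_le h]
    simp

lemma sum_w (N B : ℕ) (hN : 1 ≤ N) : ∑ p ∈ (Icc 1 B).filter Nat.Prime, w N p * (2 * B / p) ≤ 4 * B := by
  have h1 : ∀ p ∈ (Icc 1 B).filter Nat.Prime, w N p * (2 * B / p) =
      2 * B * ((p : ℝ) ^ 2)⁻¹ + if N < p then 2 * B * (N * ((p : ℝ) ^ 2)⁻¹) else 0 := by
    intro p hp
    rw [mem_filter, mem_Icc] at hp
    have hp0 : (p : ℝ) ≠ 0 := by
      have := hp.2.pos
      positivity
    unfold w
    split_ifs
    · field_simp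
    · field_simp
      ring
  rw [sum_congr rfl h1, sum_add_distrib]
  have h2 : ∑ p ∈ (Icc 1 B).filter Nat.Prime, 2 * (B : ℝ) * ((p : ℝ) ^ 2)⁻¹ ≤ 2 * B * 1 := by
    rw [← mul_sum]
    refine mul_le_mul_of_nonneg_left ?_ (by positivity)
    calc ∑ p ∈ (Icc 1 B).filter Nat.Prime, ((p : ℝ) ^ 2)⁻¹ ≤ ∑ p ∈ Ioc 1 B, ((p : ℝ) ^ 2)⁻¹ := by
          refine sum_le_sum_of_subset_of_nonneg ?_ (fun _ _ _ => by positivity)
          intro p hp
          rw [mem_filter, mem_Icc] at hp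
          rw [mem_Ioc]
          exact ⟨hp.2.one_lt, hp.1.2⟩
      _ ≤ ((1 : ℕ) : ℝ)⁻¹ := sum_sq le_rfl
      _ = 1 := by simp
  have h3 : ∑ p ∈ (Icc 1 B).filter Nat.Prime, (if N < p then 2 * (B : ℝ) * (N * ((p : ℝ) ^ 2)⁻¹) else 0) ≤
      2 * B * 1 := by
    rw [← sum_filter]
    have : ∀ p ∈ ((Icc 1 B).filter Nat.Prime).filter (fun p => N < p), 2 * (B : ℝ) * (N * ((p : ℝ) ^ 2)⁻¹) =
        2 * B * N * ((p : ℝ) ^ 2)⁻¹ := fun p _ => by ring
    rw [sum_congr rfl this, ← mul_sum]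
    calc 2 * (B : ℝ) * N * ∑ p ∈ ((Icc 1 B).filter Nat.Prime).filter (fun p => N < p), ((p : ℝ) ^ 2)⁻¹
        ≤ 2 * B * N * ∑ p ∈ Ioc N B, ((p : ℝ) ^ 2)⁻¹ := by
          refine mul_le_mul_of_nonneg_left ?_ (by positivity)
          refine sum_le_sum_of_subset_of_nonneg ?_ (fun _ _ _ => by positivity)
          intro p hp
          rw [mem_filter, mem_filter, mem_Icc] at hp
          rw [mem_Ioc]
          exact ⟨hp.2, hp.1.1.2⟩
      _ ≤ 2 * B * N * (N : ℝ)⁻¹ := mul_le_mul_of_nonneg_left (sum_sq hN) (by positivity)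
      _ = 2 * B * 1 := by
          have : (N : ℝ) ≠ 0 := by positivity
          field_simp
  linarith

/-- There is `b` between `1` and `B` such that `q₁ + b q₂` has few prime factors `≤ B`. -/
theorem exists_good {q₁ q₂ B N : ℕ} (h : Nat.Coprime q₁ q₂) (hB : 1 ≤ B) (hN : 1 ≤ N) :
    ∃ b : ℕ, 1 ≤ b ∧ b ≤ B ∧
      ∑ p ∈ (Icc 1 B).filter (fun p => p.Prime ∧ p ∣ q₁ + b * q₂), w N p ≤ 4 := by
  by_contra hcon
  push Not at hcon
  have h1 : ∑ b ∈ Icc 1 B, (4 : ℝ) <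
      ∑ b ∈ Icc 1 B, ∑ p ∈ (Icc 1 B).filter (fun p => p.Prime ∧ p ∣ q₁ + b * q₂), w N p := by
    refine sum_lt_sum_of_nonempty ⟨1, by simp [hB]⟩ fun b hb => ?_
    rw [mem_Icc] at hb
    exact hcon b hb.1 hb.2
  have h2 : ∑ b ∈ Icc 1 B, ∑ p ∈ (Icc 1 B).filter (fun p => p.Prime ∧ p ∣ q₁ + b * q₂), w N p =
      ∑ p ∈ (Icc 1 B).filter Nat.Prime, w N p * ((Icc 1 B).filter fun b => p ∣ q₁ + b * q₂).card := by
    have h3 : ∀ b ∈ Icc 1 B, ∑ p ∈ (Icc 1 B).filter (fun p => p.Prime ∧ p ∣ q₁ + b * q₂), w N p =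
        ∑ p ∈ (Icc 1 B).filter Nat.Prime, if p ∣ q₁ + b * q₂ then w N p else 0 := by
      intro b _
      rw [← sum_filter, filter_filter]
    rw [sum_congr rfl h3, sum_comm]
    refine sum_congr rfl fun p _ => ?_
    rw [← sum_filter, sum_const, nsmul_eq_mul, mul_comm]
  have h4 : ∑ p ∈ (Icc 1 B).filter Nat.Prime, w N p * ((Icc 1 B).filter fun b => p ∣ q₁ + b * q₂).card ≤
      ∑ p ∈ (Icc 1 B).filter Nat.Prime, w N p * (2 * B / p) := by
    refine sum_le_sum fun p hp => ?_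
    rw [mem_filter, mem_Icc] at hp
    exact mul_le_mul_of_nonneg_left (count_le h hp.2 hp.1.2) (w_nonneg N p)
  have h5 := sum_w N B hN
  rw [h2] at h1
  have h6 : ∑ b ∈ Icc 1 B, (4 : ℝ) = 4 * B := by
    rw [sum_const, nsmul_eq_mul, Nat.card_Icc, Nat.add_sub_cancel]
    ring
  linarith

end Pool.Agent.H661.RG
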