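import Pool.Agent.H661.RG.Tot

set_option autoImplicit false

/-! # A member of `∑ b_j v_j` with few prime factors of medium size -/

namespace Pool.Agent.H661.RG

open Finset

/-- the boxes of coefficients -/
def box (t B : ℕ) : Finset (Fin t → ℕ) := Fintype.piFinset fun _ => Icc 1 B

lemma card_box (t B : ℕ) : (box t B).card = B ^ t := by
  unfold box
  rw [Fintype.card_piFinset_const]
  simp

lemma count_multi {t : ℕ} (v : Fin t → ℕ) {B p : ℕ} (hp : p.Prime) (hpB : p ≤ B) {j₀ : Fin t} (hj : ¬ p ∣ v j₀) :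
    (((box t B).filter fun b => p ∣ ∑ j, b j * v j).card : ℝ) ≤ 2 * B / p * B ^ (t - 1) := by
  have hp0 : 0 < p := hp.pos
  set T : Finset (Fin t → ℕ) := Fintype.piFinset fun j => if j = j₀ then {1} else Icc 1 B with hT
  have hTc : T.card = B ^ (t - 1) := by
    rw [hT, Fintype.card_piFinset]
    rw [← Finset.mul_prod_erase univ _ (mem_univ j₀)]
    simp only [if_true, card_singleton, one_mul]
    rw [Finset.prod_congr rfl (g := fun _ => B) (fun j hj' => by
      rw [if_neg (ne_of_mem_erase hj')]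
      simp), prod_const, card_erase_of_mem (mem_univ _), card_univ, Fintype.card_fin]
  have h1 : ((box t B).filter fun b => p ∣ ∑ j, b j * v j).card ≤ B ^ (t - 1) * (B / p + 1) := by
    rw [← hTc, ← card_range (B / p + 1), ← card_product]
    refine card_le_card_of_injOn (fun b => (Function.update b j₀ 1, b j₀ / p)) ?_ ?_
    · intro b hb
      rw [mem_coe, mem_filter, box, Fintype.mem_piFinset] at hb
      rw [mem_coe, mem_product, hT, Fintype.mem_piFinset]
      refine ⟨fun j => ?_, ?_⟩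
      · by_cases hjj : j = j₀
        · subst hjj
          simp
        · rw [if_neg hjj]
          simp only [Function.update_of_ne hjj]
          exact hb.1 j
      · rw [mem_range]
        have h2 := (mem_Icc.1 (hb.1 j₀)).2
        have := Nat.div_le_div_right (c := p) h2
        show b j₀ / p < B / p + 1
        omega
    · intro b hb b' hb' hbb
      rw [mem_coe, mem_filter] at hb hb'
      have h2 : Function.update b j₀ 1 = Function.update b' j₀ 1 := (Prod.ext_iff.1 hbb).1
      have h3 : b j₀ / p = b' j₀ / p := (Prod.ext_iff.1 hbb).2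
      have h4 : ∀ j, j ≠ j₀ → b j = b' j := by
        intro j hjj
        have := congrFun h2 j
        rwa [Function.update_of_ne hjj, Function.update_of_ne hjj] at this
      have h5 : ∑ j, b j * v j = b j₀ * v j₀ + ∑ j ∈ univ.erase j₀, b j * v j :=
        (Finset.add_sum_erase univ _ (mem_univ j₀)).symm
      have h6 : ∑ j, b' j * v j = b' j₀ * v j₀ + ∑ j ∈ univ.erase j₀, b j * v j := by
        rw [← Finset.add_sum_erase univ _ (mem_univ j₀)]
        congr 1
        refine sum_congr rfl fun j hjj => ?_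
        rw [h4 j (ne_of_mem_erase hjj)]
      have h7 : (b j₀ * v j₀ + ∑ j ∈ univ.erase j₀, b j * v j) ≡ (b' j₀ * v j₀ + ∑ j ∈ univ.erase j₀, b j * v j) [MOD p] := by
        rw [← h5, ← h6]
        exact (Nat.modEq_zero_iff_dvd.2 hb.2).trans (Nat.modEq_zero_iff_dvd.2 hb'.2).symm
      have h8 : b j₀ * v j₀ ≡ b' j₀ * v j₀ [MOD p] := Nat.ModEq.add_right_cancel' _ h7
      have h9 : b j₀ ≡ b' j₀ [MOD p] :=
        Nat.ModEq.cancel_right_of_coprime ((Nat.Prime.coprime_iff_not_dvd hp).2 hj) h8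
      have h10 : b j₀ % p = b' j₀ % p := h9
      have h11 : b j₀ = b' j₀ := by
        rw [← Nat.div_add_mod (b j₀) p, ← Nat.div_add_mod (b' j₀) p, h3, h10]
      funext j
      by_cases hjj : j = j₀
      · rw [hjj, h11]
      · exact h4 j hjj
  have hp' : (0 : ℝ) < p := by exact_mod_cast hp0
  have h2 : (B / p + 1) * p ≤ 2 * B := by
    calc (B / p + 1) * p = B / p * p + p := by ring
      _ ≤ B + B := Nat.add_le_add (Nat.div_mul_le_self _ _) hpB
      _ = 2 * B := by ring
  have h3 : ((B / p + 1 : ℕ) : ℝ) ≤ 2 * B / p := by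
    rw [le_div_iff₀ hp']
    exact_mod_cast h2
  calc (((box t B).filter fun b => p ∣ ∑ j, b j * v j).card : ℝ) ≤ ((B ^ (t - 1) * (B / p + 1) : ℕ) : ℝ) := by
        exact_mod_cast h1
    _ = (B : ℝ) ^ (t - 1) * ((B / p + 1 : ℕ) : ℝ) := by push_cast; ring
    _ ≤ (B : ℝ) ^ (t - 1) * (2 * B / p) := by gcongr
    _ = 2 * B / p * B ^ (t - 1) := by ring

theorem exists_good2 {t : ℕ} (ht : 1 ≤ t) (v : Fin t → ℕ) (hv : ∀ p : ℕ, p.Prime → ∃ j, ¬ p ∣ v j) {B N : ℕ}
    (hB : 1 ≤ B) (hN : 1 ≤ N) :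
    ∃ b : Fin t → ℕ, (∀ j, 1 ≤ b j ∧ b j ≤ B) ∧
      ∑ p ∈ (Icc 1 B).filter (fun p => p.Prime ∧ p ∣ ∑ j, b j * v j), w N p ≤ 4 := by
  by_contra hcon
  push Not at hcon
  have h1 : ∑ b ∈ box t B, (4 : ℝ) <
      ∑ b ∈ box t B, ∑ p ∈ (Icc 1 B).filter (fun p => p.Prime ∧ p ∣ ∑ j, b j * v j), w N p := by
    refine sum_lt_sum_of_nonempty ⟨fun _ => 1, ?_⟩ fun b hb => ?_
    · rw [box, Fintype.mem_piFinset]
      intro _
      simp [hB]
    · rw [box, Fintype.mem_piFinset] at hb
      exact hcon b fun j => mem_Icc.1 (hb j)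
  have h2 : ∑ b ∈ box t B, ∑ p ∈ (Icc 1 B).filter (fun p => p.Prime ∧ p ∣ ∑ j, b j * v j), w N p =
      ∑ p ∈ (Icc 1 B).filter Nat.Prime, w N p * ((box t B).filter fun b => p ∣ ∑ j, b j * v j).card := by
    have h3 : ∀ b ∈ box t B, ∑ p ∈ (Icc 1 B).filter (fun p => p.Prime ∧ p ∣ ∑ j, b j * v j), w N p =
        ∑ p ∈ (Icc 1 B).filter Nat.Prime, if p ∣ ∑ j, b j * v j then w N p else 0 := by
      intro b _
      rw [← sum_filter, filter_filter]
    rw [sum_congr rfl h3, sum_comm]
    refine sum_congr rfl fun p _ => ?_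
    rw [← sum_filter, sum_const, nsmul_eq_mul, mul_comm]
  have h4 : ∑ p ∈ (Icc 1 B).filter Nat.Prime, w N p * ((box t B).filter fun b => p ∣ ∑ j, b j * v j).card ≤
      ∑ p ∈ (Icc 1 B).filter Nat.Prime, (w N p * (2 * B / p)) * B ^ (t - 1) := by
    refine sum_le_sum fun p hp => ?_
    rw [mem_filter, mem_Icc] at hp
    obtain ⟨j₀, hj₀⟩ := hv p hp.2
    rw [mul_assoc]
    exact mul_le_mul_of_nonneg_left (count_multi v hp.2 hp.1.2 hj₀) (w_nonneg N p)
  rw [← sum_mul] at h4
  have h5 := sum_w N B hN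
  have h5' : (∑ p ∈ (Icc 1 B).filter Nat.Prime, w N p * (2 * B / p)) * B ^ (t - 1) ≤ 4 * B * (B : ℝ) ^ (t - 1) :=
    mul_le_mul_of_nonneg_right h5 (by positivity)
  rw [h2] at h1
  have h6 : ∑ b ∈ box t B, (4 : ℝ) = 4 * B * (B : ℝ) ^ (t - 1) := by
    rw [sum_const, nsmul_eq_mul, card_box]
    obtain ⟨s, rfl⟩ := Nat.exists_eq_add_of_le' ht
    push_cast
    rw [pow_succ]
    ring
  linarith

/-- the consequences for `q` -/
theorem conseq {q B N : ℕ} (hq1 : 1 ≤ q) (hB : 1 ≤ B) (hN : 1 ≤ N)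
    (hb3 : ∑ p ∈ (Icc 1 B).filter (fun p => p.Prime ∧ p ∣ q), w N p ≤ 4) :
      ∑ p ∈ q.primeFactors with N < p, 1 / (p : ℝ) ≤ 4 / N + 2 * Real.log q / B ∧
      Real.exp (-2 * (4 + 2 * Real.log q / B)) ≤ (Nat.totient q : ℝ) / q := by
  have hB0 : (0 : ℝ) < B := by exact_mod_cast hB
  have hN0 : (0 : ℝ) < N := by exact_mod_cast hN
  have hbig : ∑ p ∈ q.primeFactors with B < p, 1 / (p : ℝ) ≤ 2 * Real.log q / B := by
    calc ∑ p ∈ q.primeFactors with B < p, 1 / (p : ℝ) ≤ ∑ p ∈ q.primeFactors with B < p, 1 / (B : ℝ) := by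
          refine sum_le_sum fun p hp => ?_
          rw [mem_filter] at hp
          have h7 : (B : ℝ) ≤ p := by exact_mod_cast hp.2.le
          exact one_div_le_one_div_of_le hB0 h7
      _ = ((q.primeFactors.filter (fun p => B < p)).card : ℝ) / B := by
          rw [sum_const, nsmul_eq_mul]; ring
      _ ≤ (q.primeFactors.card : ℝ) / B := by
          have h8 : ((q.primeFactors.filter (fun p => B < p)).card : ℝ) ≤ q.primeFactors.card := by
            exact_mod_cast card_filter_le _ _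
          gcongr
      _ ≤ 2 * Real.log q / B := by
          have := card_le hq1
          gcongr
  constructor
  · have h9 : ∑ p ∈ q.primeFactors with N < p, 1 / (p : ℝ) ≤
        ∑ p ∈ (Icc 1 B).filter (fun p => (p.Prime ∧ p ∣ q) ∧ N < p), 1 / (p : ℝ) +
          ∑ p ∈ q.primeFactors with B < p, 1 / (p : ℝ) := by
      rw [← sum_filter_add_sum_filter_not (q.primeFactors.filter (fun p => N < p)) (fun p => p ≤ B)]
      refine add_le_add ?_ ?_
      · refine sum_le_sum_of_subset_of_nonneg ?_ (fun _ _ _ => by positivity)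
        intro p hp
        rw [mem_filter, mem_filter, Nat.mem_primeFactors] at hp
        rw [mem_filter, mem_Icc]
        exact ⟨⟨hp.1.1.1.pos, hp.2⟩, ⟨hp.1.1.1, hp.1.1.2.1⟩, hp.1.2⟩
      · refine sum_le_sum_of_subset_of_nonneg ?_ (fun _ _ _ => by positivity)
        intro p hp
        rw [mem_filter, mem_filter] at hp
        rw [mem_filter]
        exact ⟨hp.1.1, by omega⟩
    have h10 : (N : ℝ) * ∑ p ∈ (Icc 1 B).filter (fun p => (p.Prime ∧ p ∣ q) ∧ N < p), 1 / (p : ℝ) ≤ 4 := by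
      refine le_trans ?_ hb3
      rw [mul_sum, ← filter_filter, sum_filter]
      refine sum_le_sum fun p hp => ?_
      unfold w
      split_ifs
      · have : (0 : ℝ) ≤ 1 / p := by positivity
        have h11 : (N : ℝ) * (1 / p) = N / p := by ring
        rw [h11]
        linarith
      · positivity
    have h12 : ∑ p ∈ (Icc 1 B).filter (fun p => (p.Prime ∧ p ∣ q) ∧ N < p), 1 / (p : ℝ) ≤ 4 / N := by
      rw [le_div_iff₀ hN0]
      linarith
    linarith
  · refine le_trans ?_ (totient_ge hq1)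
    rw [Real.exp_le_exp]
    have h9 : ∑ p ∈ q.primeFactors, 1 / (p : ℝ) ≤
        ∑ p ∈ (Icc 1 B).filter (fun p => p.Prime ∧ p ∣ q), 1 / (p : ℝ) +
          ∑ p ∈ q.primeFactors with B < p, 1 / (p : ℝ) := by
      rw [← sum_filter_add_sum_filter_not q.primeFactors (fun p => p ≤ B)]
      refine add_le_add ?_ ?_
      · refine sum_le_sum_of_subset_of_nonneg ?_ (fun _ _ _ => by positivity)
        intro p hp
        rw [mem_filter, Nat.mem_primeFactors] at hp
        rw [mem_filter, mem_Icc]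
        exact ⟨⟨hp.1.1.pos, hp.2⟩, hp.1.1, hp.1.2.1⟩
      · refine sum_le_sum_of_subset_of_nonneg ?_ (fun _ _ _ => by positivity)
        intro p hp
        rw [mem_filter] at hp
        rw [mem_filter]
        exact ⟨hp.1, by omega⟩
    have h10 : ∑ p ∈ (Icc 1 B).filter (fun p => p.Prime ∧ p ∣ q), 1 / (p : ℝ) ≤ 4 := by
      refine le_trans ?_ hb3
      refine sum_le_sum fun p hp => ?_
      unfold w
      split_ifs
      · have : (0 : ℝ) ≤ (N : ℝ) / p := by positivity
        linarith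
      · linarith
    linarith

end Pool.Agent.H661.RG
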