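import Mathlib

set_option autoImplicit false

/-! # Conditions which hold for all large `X` -/

namespace Pool.Agent.H661.RG

open Filter

/-- the bound for the medium primes -/
noncomputable def y0 (x : ℝ) : ℝ :=
  Real.exp (Real.log (Real.log x) * Real.log (Real.log (Real.log (Real.log x))) /
        (20 * Real.log (Real.log (Real.log x))))

/-- the record scale -/
noncomputable def f (x : ℝ) : ℝ :=
  Real.log x * (Real.log (Real.log x)) ^ 2 * Real.log (Real.log (Real.log (Real.log x))) /
    (Real.log (Real.log (Real.log x))) ^ 2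

lemma tL1 : Tendsto (fun x : ℝ => Real.log x) atTop atTop := Real.tendsto_log_atTop
lemma tL2 : Tendsto (fun x : ℝ => Real.log (Real.log x)) atTop atTop := Real.tendsto_log_atTop.comp tL1
lemma tL3 : Tendsto (fun x : ℝ => Real.log (Real.log (Real.log x))) atTop atTop :=
  Real.tendsto_log_atTop.comp tL2
lemma tL4 : Tendsto (fun x : ℝ => Real.log (Real.log (Real.log (Real.log x)))) atTop atTop :=
  Real.tendsto_log_atTop.comp tL3

lemma ev_y0 : ∀ᶠ x : ℝ in atTop, (Real.log (Real.log x)) ^ 2 ≤ y0 x := by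
  filter_upwards [tL1.eventually_ge_atTop 1, tL2.eventually_ge_atTop 1, tL3.eventually_ge_atTop 240,
    tL4.eventually_ge_atTop 1] with x h1 h2 h3 h4
  set u := Real.log (Real.log (Real.log x)) with hu
  have hu0 : 0 < u := by linarith
  have hL2 : Real.log (Real.log x) = Real.exp u := by
    rw [hu, Real.exp_log (by linarith)]
  have h5 : u ^ 3 / (Nat.factorial 3 : ℝ) ≤ Real.exp u := Real.pow_div_factorial_le_exp u hu0.le 3
  have h6 : 40 * u ^ 2 ≤ Real.exp u := by
    refine le_trans ?_ h5
    have : (Nat.factorial 3 : ℝ) = 6 := by norm_num [Nat.factorial]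
    rw [this]
    have : 0 ≤ u ^ 2 * (u - 240) := mul_nonneg (by positivity) (by linarith)
    nlinarith
  have h7 : 2 * u ≤ Real.log (Real.log x) * Real.log u / (20 * u) := by
    rw [le_div_iff₀ (by linarith), hL2]
    have : Real.exp u * 1 ≤ Real.exp u * Real.log u := mul_le_mul_of_nonneg_left h4 (Real.exp_pos _).le
    nlinarith
  have h8 : (Real.log (Real.log x)) ^ 2 = Real.exp (2 * u) := by
    rw [hL2, ← Real.exp_nat_mul]
    norm_num
  rw [h8]
  unfold y0
  exact Real.exp_le_exp.2 h7

lemma ev_pow {δ : ℝ} (hδ : 0 < δ) (K : ℝ) : ∀ᶠ x : ℝ in atTop, K ≤ x ^ δ :=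
  (tendsto_rpow_atTop hδ).eventually_ge_atTop K

lemma ev_log {δ : ℝ} (hδ : 0 < δ) : ∀ᶠ x : ℝ in atTop, 4 * Real.log x * Real.log (Real.log x) ≤ x ^ δ := by
  have h1 := (isLittleO_log_rpow_atTop (r := δ / 2) (by linarith)).bound (c := 1 / 2) (by norm_num)
  filter_upwards [h1, tL1.eventually_ge_atTop 1, tL2.eventually_ge_atTop 1, eventually_gt_atTop 0] with x h2 h3 h4 hx
  rw [Real.norm_of_nonneg (by linarith), Real.norm_of_nonneg (by positivity)] at h2
  have h5 : Real.log (Real.log x) ≤ Real.log x := (Real.log_le_sub_one_of_pos (by linarith)).trans (by linarith)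
  have h6 : x ^ δ = x ^ (δ / 2) * x ^ (δ / 2) := by
    rw [← Real.rpow_add hx]
    congr 1
    ring
  rw [h6]
  have h7 : 2 * Real.log x ≤ x ^ (δ / 2) := by linarith
  nlinarith

lemma ev_f : ∀ᶠ x : ℝ in atTop, 0 ≤ f x := by
  filter_upwards [tL1.eventually_ge_atTop 1, tL2.eventually_ge_atTop 1, tL3.eventually_ge_atTop 1,
    tL4.eventually_ge_atTop 1] with x h1 h2 h3 h4
  unfold f
  positivity

end Pool.Agent.H661.RG
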