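import Pool.Agent.H661.RG.Geo
import Pool.Agent.H661.RG.Avg2

set_option autoImplicit false

/-! # The modulus and the start -/

namespace Pool.Agent.H661.RG

open Finset Pool.Agent.H393R2.Geom

theorem family {k : ℕ} (L : Matrix (Fin (k + 1)) (Fin (k + 1)) ℝ) (G : Matrix (Fin (k + 1)) (Fin (k + 1)) ℤ)
    (hG : G.det ≠ 0) {M : ℝ} (hM : ∀ j, ‖app L (G j)‖ ≤ M) :
    ∃ u : Fin (k + 2) → (Fin (k + 1) → ℤ), (∀ j, 0 ≤ u j 0) ∧ (∀ j, ‖app L (u j)‖ ≤ (k + 1 : ℕ) * M) ∧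
      ∀ p : ℕ, p.Prime → ∃ j, ¬ (p : ℤ) ∣ u j 0 := by
  have hM0 : 0 ≤ M := (norm_nonneg _).trans (hM 0)
  set e0 : Fin (k + 1) → ℤ := Pi.single 0 1 with he0
  obtain ⟨e, he⟩ := rounding L G hG hM (fun i => (e0 i : ℝ))
  set y : Fin (k + 1) → ℤ := e0 - ∑ j, e j • G j with hy
  have hyn : ‖app L y‖ ≤ (k + 1 : ℕ) * M := by
    have h1 : app L y = L.mulVec ((fun i => (e0 i : ℝ)) - fun i => ((∑ j, e j • G j) i : ℝ)) := by
      show L.mulVec (fun i => (y i : ℝ)) = _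
      congr 1
      funext i
      rw [hy]
      simp only [Pi.sub_apply]
      push_cast
      ring
    rw [h1]
    exact he
  obtain ⟨U, hU0, hUs⟩ : ∃ U : Fin (k + 2) → (Fin (k + 1) → ℤ), U 0 = y ∧ ∀ i : Fin (k + 1), U i.succ = G i :=
    ⟨Fin.cons (α := fun _ => Fin (k + 1) → ℤ) y (fun i => G i), rfl, fun _ => rfl⟩
  have hUn : ∀ j, ‖app L (U j)‖ ≤ (k + 1 : ℕ) * M := by
    intro j
    refine Fin.cases ?_ (fun i => ?_) j
    · rw [hU0]
      exact hyn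
    · rw [hUs]
      refine (hM i).trans ?_
      push_cast
      nlinarith [mul_nonneg (Nat.cast_nonneg (α := ℝ) k) hM0]
  refine ⟨fun j => if 0 ≤ U j 0 then U j else -U j, ?_, ?_, ?_⟩
  · intro j
    dsimp only
    split_ifs with h
    · exact h
    · simp only [Pi.neg_apply]
      omega
  · intro j
    dsimp only
    split_ifs with h
    · exact hUn j
    · rw [map_neg, norm_neg]
      exact hUn j
  · intro p hp
    by_contra hcon
    push Not at hcon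
    have h1 : ∀ j, (p : ℤ) ∣ U j 0 := by
      intro j
      have := hcon j
      split_ifs at this with h
      · exact this
      · simpa using this
    have h2 : (p : ℤ) ∣ y 0 := by
      have := h1 0
      rwa [hU0] at this
    have h3 : ∀ i, (p : ℤ) ∣ G i 0 := by
      intro i
      have := h1 i.succ
      rwa [hUs] at this
    have h4 : (1 : ℤ) = y 0 + ∑ j, e j * G j 0 := by
      rw [hy]
      simp [he0, Finset.sum_apply]
    have h5 : (p : ℤ) ∣ 1 := by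
      rw [h4]
      exact dvd_add h2 (dvd_sum fun j _ => Dvd.dvd.mul_left (h3 j) _)
    have h6 : p ∣ 1 := by exact_mod_cast h5
    exact hp.one_lt.ne' (Nat.dvd_one.1 h6)

theorem modulus {k : ℕ} (L : Matrix (Fin (k + 1)) (Fin (k + 1)) ℝ) (G : Matrix (Fin (k + 1)) (Fin (k + 1)) ℤ)
    (hG : G.det ≠ 0) {M : ℝ} (hM : ∀ j, ‖app L (G j)‖ ≤ M) {B N : ℕ} (hB : 1 ≤ B) (hN : 1 ≤ N) :
    ∃ (q : ℕ) (U : Fin (k + 1) → ℤ), 1 ≤ q ∧ U 0 = q ∧ ‖app L U‖ ≤ (k + 2) * B * ((k + 1) * M) ∧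
      ∑ p ∈ q.primeFactors with N < p, 1 / (p : ℝ) ≤ 4 / N + 2 * Real.log q / B ∧
      Real.exp (-2 * (4 + 2 * Real.log q / B)) ≤ (Nat.totient q : ℝ) / q := by
  obtain ⟨u, hu0, hun, hup⟩ := family L G hG hM
  have hM0 : 0 ≤ M := (norm_nonneg _).trans (hM 0)
  set v : Fin (k + 2) → ℕ := fun j => (u j 0).toNat with hv
  have hvu : ∀ j, ((v j : ℕ) : ℤ) = u j 0 := fun j => Int.toNat_of_nonneg (hu0 j)
  have hvp : ∀ p : ℕ, p.Prime → ∃ j, ¬ p ∣ v j := by
    intro p hp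
    obtain ⟨j, hj⟩ := hup p hp
    refine ⟨j, fun h => hj ?_⟩
    rw [← hvu j]
    exact_mod_cast h
  obtain ⟨b, hb1, hb2⟩ := exists_good2 (by omega : 1 ≤ k + 2) v hvp hB hN
  have hq1 : 1 ≤ ∑ j, b j * v j := by
    obtain ⟨j, hj⟩ := hvp 2 Nat.prime_two
    have hvj : 1 ≤ v j := by
      rcases Nat.eq_zero_or_pos (v j) with h | h
      · rw [h] at hj
        simp at hj
      · exact h
    calc 1 ≤ b j * v j := Nat.mul_pos (hb1 j).1 hvj
      _ ≤ ∑ j, b j * v j := single_le_sum (f := fun j => b j * v j) (fun _ _ => Nat.zero_le _) (mem_univ j)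
  obtain ⟨hc1, hc2⟩ := conseq hq1 hB hN hb2
  refine ⟨∑ j, b j * v j, ∑ j, (b j : ℤ) • u j, hq1, ?_, ?_, hc1, hc2⟩
  · simp only [Finset.sum_apply, Pi.smul_apply, smul_eq_mul]
    push_cast
    refine sum_congr rfl fun j _ => ?_
    rw [hvu j]
  · rw [map_sum]
    refine (norm_sum_le _ _).trans ?_
    have h1 : ∀ j ∈ (univ : Finset (Fin (k + 2))), ‖app L ((b j : ℤ) • u j)‖ ≤ B * ((k + 1) * M) := by
      intro j _
      rw [map_zsmul]
      have h2 : ((b j : ℤ) • (app L (u j))) = (b j : ℝ) • (app L (u j)) := by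
        funext i
        simp
      rw [h2, norm_smul, Real.norm_of_nonneg (Nat.cast_nonneg _)]
      have h3 : (b j : ℝ) ≤ B := by exact_mod_cast (hb1 j).2
      have h4 := hun j
      push_cast at h4
      gcongr
    refine (sum_le_sum h1).trans ?_
    simp only [sum_const, card_univ, Fintype.card_fin, nsmul_eq_mul]
    push_cast
    apply le_of_eq
    ring

theorem comp_zero {k : ℕ} {α : Fin k → ℝ} {Q R C : ℝ} (hQ : 0 < Q) {x : Fin (k + 1) → ℝ}
    (h : ‖(forms α Q R).mulVec x‖ ≤ C) : |x 0| ≤ C * Q := by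
  have h1 := (norm_le_pi_norm _ (0 : Fin (k + 1))).trans h
  rw [app_zero, Real.norm_eq_abs, abs_div, abs_of_pos hQ, div_le_iff₀ hQ] at h1
  exact h1

theorem comp_succ {k : ℕ} {α : Fin k → ℝ} {Q R C : ℝ} (hR : 0 < R) {x : Fin (k + 1) → ℝ}
    (h : ‖(forms α Q R).mulVec x‖ ≤ C) (a : Fin k) : |x 0 * α a - x a.succ| ≤ C / R := by
  have h1 := (norm_le_pi_norm _ (a.succ : Fin (k + 1))).trans h
  rw [app_succ, Real.norm_eq_abs, abs_mul, abs_of_pos hR] at h1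
  rw [le_div_iff₀ hR]
  linarith

theorem startv {k : ℕ} (α : Fin k → ℝ) {Q R : ℝ} (hQ : 0 < Q) (hR : 0 < R)
    (G : Matrix (Fin (k + 1)) (Fin (k + 1)) ℤ) (hG : G.det ≠ 0) {M : ℝ}
    (hM : ∀ j, ‖app (forms α Q R) (G j)‖ ≤ M) (β : Fin k → ℝ) (w0 : ℝ) :
    ∃ Y : Fin (k + 1) → ℤ, |w0 - Y 0| ≤ (k + 1) * M * Q ∧
      ∀ a, |(Y 0 : ℝ) * α a - β a - Y a.succ| ≤ (k + 1) * M / R := by
  obtain ⟨e, he⟩ := rounding (forms α Q R) G hG hM (Fin.cons w0 fun a => w0 * α a - β a : Fin (k + 1) → ℝ)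
  push_cast at he
  refine ⟨∑ j, e j • G j, ?_, fun a => ?_⟩
  · have := comp_zero hQ he
    simpa using this
  · have := comp_succ hR he a
    simp only [Pi.sub_apply, Fin.cons_zero, Fin.cons_succ] at this
    rw [← abs_neg]
    refine le_trans (le_of_eq ?_) this
    congr 1
    ring

end Pool.Agent.H661.RG
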