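import Pool.Agent.H393R2.Geom3

set_option autoImplicit false

/-! # The lattice of a simultaneous approximation problem -/

namespace Pool.Agent.H661.RG

open Finset Pool.Agent.H393R2.Geom

/-- the forms `x_0 / Q`, `R (x_0 α_i - x_i)` -/
noncomputable def forms {k : ℕ} (α : Fin k → ℝ) (Q R : ℝ) : Matrix (Fin (k + 1)) (Fin (k + 1)) ℝ :=
  Matrix.of fun i j => Fin.cases (if j = 0 then 1 / Q else 0)
    (fun a : Fin k => if j = 0 then R * α a else if j = a.succ then -R else 0) i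

lemma forms_det {k : ℕ} (α : Fin k → ℝ) {Q R : ℝ} (hQ : 0 < Q) (hR : 0 < R) (h : R ^ k = Q) :
    |(forms α Q R).det| = 1 := by
  have htri : (forms α Q R).BlockTriangular OrderDual.toDual := by
    intro i j hij
    have hij' : i < j := hij
    unfold forms
    rw [Matrix.of_apply]
    refine Fin.cases ?_ (fun a => ?_) i hij'
    · intro h0
      simp only [Fin.cases_zero]
      rw [if_neg h0.ne']
    · intro h0
      simp only [Fin.cases_succ]
      rw [if_neg (lt_of_le_of_lt (Fin.zero_le _) h0).ne', if_neg h0.ne']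
  rw [Matrix.det_of_isLowerTriangular _ htri, Fin.prod_univ_succ]
  have h1 : forms α Q R 0 0 = 1 / Q := by simp [forms]
  have h2 : ∀ a : Fin k, forms α Q R a.succ a.succ = -R := by
    intro a
    simp [forms]
  simp only [h1, h2, prod_const, card_univ, Fintype.card_fin]
  rw [abs_mul, abs_pow, abs_neg, abs_of_pos hR, abs_of_pos (by positivity), h]
  field_simp

lemma app_zero {k : ℕ} (α : Fin k → ℝ) (Q R : ℝ) (x : Fin (k + 1) → ℝ) :
    (forms α Q R).mulVec x 0 = x 0 / Q := by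
  rw [Matrix.mulVec, dotProduct, Fin.sum_univ_succ]
  simp [forms, Fin.succ_ne_zero]
  ring

lemma app_succ {k : ℕ} (α : Fin k → ℝ) (Q R : ℝ) (x : Fin (k + 1) → ℝ) (a : Fin k) :
    (forms α Q R).mulVec x a.succ = R * (x 0 * α a - x a.succ) := by
  rw [Matrix.mulVec, dotProduct, Fin.sum_univ_succ]
  simp [forms, Fin.succ_ne_zero, ite_mul]
  ring

/-- independent short vectors, from a lower bound for all vectors -/
theorem short {k : ℕ} (α : Fin k → ℝ) {Q R l : ℝ} (hQ : 0 < Q) (hR : 0 < R) (h : R ^ k = Q) (hl : 0 < l)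
    (hlow : ∀ x : Fin (k + 1) → ℤ, x ≠ 0 → l ≤ ‖app (forms α Q R) x‖) :
    ∃ G : Matrix (Fin (k + 1)) (Fin (k + 1)) ℤ, G.det ≠ 0 ∧
      ∀ j, ‖app (forms α Q R) (G j)‖ ≤ (2 * KK (k + 1)) ^ (k + 1) / l ^ k := by
  have hdet := forms_det α hQ hR h
  have hu : IsUnit (forms α Q R).det := by
    rw [isUnit_iff_ne_zero]
    intro h0
    rw [h0] at hdet
    simp at hdet
  obtain ⟨G, hG, hmono, hmin⟩ := minima (forms α Q R) ((forms α Q R)⁻¹).transpose (by
    rw [Matrix.transpose_transpose]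
    exact Matrix.nonsing_inv_mul _ hu)
  have hprod := prod_upper (forms α Q R) G (Nat.succ_pos k) hdet hG hmono hmin
  have hrow : ∀ j, G j ≠ 0 := by
    intro j h0
    apply hG
    exact Matrix.det_eq_zero_of_row_eq_zero j fun i => congrFun h0 i
  refine ⟨G, hG, fun j => ?_⟩
  refine (hmono j (Fin.last k) (Fin.le_last j)).trans ?_
  rw [le_div_iff₀ (by positivity)]
  refine le_trans ?_ hprod
  rw [Fin.prod_univ_castSucc, mul_comm]
  refine mul_le_mul_of_nonneg_right ?_ (norm_nonneg _)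
  calc l ^ k = ∏ _j : Fin k, l := by simp
    _ ≤ ∏ j : Fin k, ‖app (forms α Q R) (G (Fin.castSucc j))‖ :=
      prod_le_prod (fun _ _ => hl.le) fun j _ => hlow _ (hrow _)

/-- rounding -/
theorem rounding {n : ℕ} (L : Matrix (Fin n) (Fin n) ℝ) (G : Matrix (Fin n) (Fin n) ℤ) (hG : G.det ≠ 0)
    {M : ℝ} (hM : ∀ j, ‖app L (G j)‖ ≤ M) (u : Fin n → ℝ) :
    ∃ e : Fin n → ℤ, ‖L.mulVec (u - fun i => ((∑ j, e j • G j) i : ℝ))‖ ≤ n * M := by
  set G' : Matrix (Fin n) (Fin n) ℝ := G.map (Int.cast) with hG'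
  have hdet : IsUnit G'.det := by
    rw [isUnit_iff_ne_zero, hG']
    have : (G.map (Int.cast : ℤ → ℝ)).det = ((G.det : ℤ) : ℝ) := by
      rw [Int.cast_det]
    rw [this]
    exact_mod_cast hG
  set c : Fin n → ℝ := Matrix.vecMul u G'⁻¹ with hc
  have hcu : Matrix.vecMul c G' = u := by
    rw [hc, Matrix.vecMul_vecMul, Matrix.nonsing_inv_mul _ hdet, Matrix.vecMul_one]
  refine ⟨fun j => ⌊c j⌋, ?_⟩
  have h1 : (u - fun i => ((∑ j, ⌊c j⌋ • G j) i : ℝ)) = ∑ j, Int.fract (c j) • fun i => ((G j i : ℤ) : ℝ) := by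
    funext i
    have h2 : u i = ∑ j, c j * ((G j i : ℤ) : ℝ) := by
      rw [← hcu]
      simp [Matrix.vecMul, dotProduct, hG']
    simp only [Pi.sub_apply, Finset.sum_apply, Pi.smul_apply, smul_eq_mul]
    rw [h2]
    push_cast
    rw [← sum_sub_distrib]
    refine sum_congr rfl fun j _ => ?_
    rw [Int.fract]
    ring
  rw [h1, Matrix.mulVec_sum]
  refine (norm_sum_le _ _).trans ?_
  have h3 : ∀ j ∈ (univ : Finset (Fin n)), ‖L.mulVec (Int.fract (c j) • fun i => ((G j i : ℤ) : ℝ))‖ ≤ M := by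
    intro j _
    rw [Matrix.mulVec_smul, norm_smul, Real.norm_of_nonneg (Int.fract_nonneg _)]
    have h4 : ‖L.mulVec (fun i => ((G j i : ℤ) : ℝ))‖ ≤ M := hM j
    calc Int.fract (c j) * ‖L.mulVec (fun i => ((G j i : ℤ) : ℝ))‖ ≤ 1 * ‖L.mulVec (fun i => ((G j i : ℤ) : ℝ))‖ :=
          mul_le_mul_of_nonneg_right (Int.fract_lt_one _).le (norm_nonneg _)
      _ ≤ M := by rw [one_mul]; exact h4
  refine (sum_le_sum h3).trans ?_
  simp

end Pool.Agent.H661.RG
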