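import Pool.Agent.H661.RG.Fam
import Pool.Agent.H661.RG.Ev
import Pool.Agent.Results.MP_3bc45c_nt.RecordGapsAtPrescribedPlaces

set_option autoImplicit false

/-! # Record gaps at the integers `n` with all `n α_i` close to `β_i` modulo one -/

namespace Pool.Agent.H661.RG

open Filter Finset Pool.Agent.H393R2.Geom

/-- lower bound for the norm of the nonzero vectors -/
lemma low {k : ℕ} {α : Fin k → ℝ} {η c Q : ℝ} (hη : 0 < η) (hc : 0 < c)
    (hα : ∀ (n : ℕ) (m : Fin k → ℤ), 1 ≤ n → ∃ i, c * (n : ℝ) ^ (-(k : ℝ)⁻¹ - η) ≤ |n * α i - m i|)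
    (hQ : 1 ≤ Q) (x : Fin (k + 1) → ℤ) (hx : x ≠ 0) :
    min c 1 * Q ^ (-η) ≤ ‖app (forms α Q (Q ^ (k : ℝ)⁻¹)) x‖ := by
  by_contra hcon
  push Not at hcon
  set R : ℝ := Q ^ (k : ℝ)⁻¹ with hR
  set M : ℝ := ‖app (forms α Q R) x‖ with hM
  have hM0 : 0 ≤ M := norm_nonneg _
  have hQ0 : 0 < Q := by linarith
  have hR1 : 1 ≤ R := Real.one_le_rpow hQ (by positivity)
  have hR0 : 0 < R := by linarith
  have hQη : Q ^ (-η) ≤ 1 := Real.rpow_le_one_of_one_le_of_nonpos hQ (by linarith)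
  have hl1 : min c 1 * Q ^ (-η) ≤ 1 := by
    calc min c 1 * Q ^ (-η) ≤ 1 * 1 := by
          gcongr
          exact min_le_right _ _
      _ = 1 := one_mul 1
  have h0 : |((x 0 : ℤ) : ℝ)| ≤ M * Q := comp_zero (α := α) (R := R) (x := fun i => ((x i : ℤ) : ℝ)) hQ0 le_rfl
  have h1 : ∀ a : Fin k, |((x 0 : ℤ) : ℝ) * α a - x a.succ| ≤ M / R :=
    fun a => comp_succ (α := α) (Q := Q) (x := fun i => ((x i : ℤ) : ℝ)) hR0 le_rfl a
  have hM1 : M < 1 := lt_of_lt_of_le hcon hl1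
  by_cases hx0 : x 0 = 0
  · obtain ⟨a, ha⟩ : ∃ a : Fin k, x a.succ ≠ 0 := by
      by_contra hall
      push Not at hall
      apply hx
      funext i
      refine Fin.cases hx0 (fun a => hall a) i
    have h2 := h1 a
    rw [hx0, Int.cast_zero, zero_mul, zero_sub, abs_neg] at h2
    have h3 : (1 : ℝ) ≤ |((x a.succ : ℤ) : ℝ)| := by exact_mod_cast Int.one_le_abs ha
    have h4 : M / R ≤ M := div_le_self hM0 hR1
    linarith
  · set n : ℕ := (x 0).natAbs with hn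
    have hn1 : 1 ≤ n := Int.natAbs_pos.2 hx0
    have hnR : (n : ℝ) = |((x 0 : ℤ) : ℝ)| := by
      rw [hn, Nat.cast_natAbs, Int.cast_abs]
    have hnQ : (n : ℝ) ≤ Q := by
      rw [hnR]
      nlinarith
    have hn0 : (0 : ℝ) < n := by exact_mod_cast hn1
    obtain ⟨i, hi⟩ := hα n (fun i => (x 0).sign * x i.succ) hn1
    have h2 : |(n : ℝ) * α i - (((x 0).sign * x i.succ : ℤ) : ℝ)| = |((x 0 : ℤ) : ℝ) * α i - x i.succ| := by
      have h3 : (n : ℝ) = (((x 0).sign : ℤ) : ℝ) * (x 0 : ℝ) := by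
        have : ((n : ℤ)) = (x 0).sign * x 0 := by
          rw [hn, Int.natCast_natAbs, Int.sign_mul_self_eq_abs]
        exact_mod_cast this
      have h4 : (n : ℝ) * α i - (((x 0).sign * x i.succ : ℤ) : ℝ) =
          (((x 0).sign : ℤ) : ℝ) * (((x 0 : ℤ) : ℝ) * α i - x i.succ) := by
        rw [h3]
        push_cast
        ring
      rw [h4, abs_mul]
      have h5 : |(((x 0).sign : ℤ) : ℝ)| = 1 := by
        rw [← Int.cast_abs]
        have : |(x 0).sign| = 1 := by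
          rw [Int.abs_sign_of_ne_zero hx0]
        rw [this]
        simp
      rw [h5, one_mul]
    rw [h2] at hi
    have h3 := hi.trans (h1 i)
    have h4 : Q ^ (-(k : ℝ)⁻¹ - η) ≤ (n : ℝ) ^ (-(k : ℝ)⁻¹ - η) := by
      refine Real.rpow_le_rpow_of_nonpos hn0 hnQ ?_
      have : 0 ≤ (k : ℝ)⁻¹ := by positivity
      linarith
    have h5 : Q ^ (-(k : ℝ)⁻¹ - η) = Q ^ (-η) / R := by
      rw [hR, ← Real.rpow_sub hQ0]
      congr 1
      ring
    have h6 : c * (Q ^ (-η) / R) ≤ M / R := by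
      rw [← h5]
      exact (mul_le_mul_of_nonneg_left h4 hc.le).trans h3
    have h7 : c * Q ^ (-η) ≤ M := by
      have h8 : c * (Q ^ (-η) / R) = (c * Q ^ (-η)) / R := by ring
      rw [h8] at h6
      exact (div_le_div_iff_of_pos_right hR0).1 h6
    have h9 : min c 1 * Q ^ (-η) ≤ c * Q ^ (-η) := by
      gcongr
      exact min_le_left _ _
    linarith

/-- all conditions on `X` -/
lemma all_ev2 {δ : ℝ} (hδ : 0 < δ) (K : ℝ) : ∀ᶠ X : ℝ in atTop,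
    K ≤ X ^ δ ∧ 1 ≤ X ∧ 4 * Real.log X * Real.log (Real.log X) ≤ X ^ δ ∧ 10 ≤ Real.log (Real.log X) ∧
      (Real.log (Real.log X)) ^ 2 ≤ y0 X ∧ 0 ≤ f X := by
  filter_upwards [ev_pow hδ K, eventually_ge_atTop 1, ev_log hδ, tL2.eventually_ge_atTop 10, ev_y0, ev_f]
    with X h1 h2 h3 h4 h5 h6
  exact ⟨h1, h2, h3, h4, h5, h6⟩


lemma n2 {k δ : ℝ} (hk1 : 1 ≤ k) (hδ0 : 0 < δ) (h : 20 * (k + 1) * δ ≤ 1 / 2) : δ ≤ 1 / 40 := by nlinarith
lemma n3 {k δ : ℝ} (hδ0 : 0 < δ) : k * δ ≤ δ * (k + 1) := by nlinarith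
lemma n4 {a δ : ℝ} (h : a ≤ δ) (h0 : 0 ≤ a) (hδ0 : 0 < δ) : (1 - 8 * δ) * a ≤ δ := by
  nlinarith [mul_nonneg hδ0.le h0]
lemma n5 {L y : ℝ} (h : 10 ≤ L) (h1 : L ^ 2 ≤ y) : 100 ≤ y := by nlinarith
lemma n6 {k δ : ℝ} (hk1 : 1 ≤ k) (hδ0 : 0 < δ) (h : 20 * (k + 1) * δ ≤ 1 / 2) : (7 * k + 8) * δ ≤ 1 / 2 := by
  nlinarith
lemma n7 {i δ η τ : ℝ} (h : η ≤ δ) (h1 : 0 < τ * η) :
    4 * δ - (1 - 8 * δ) * i ≤ -i - η + (7 * δ + 8 * δ * i) + τ * η + (-(2 * δ)) := by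
  have : -i - η + (7 * δ + 8 * δ * i) + τ * η + (-(2 * δ)) - (4 * δ - (1 - 8 * δ) * i) = (δ - η) + τ * η := by ring
  linarith
lemma n8 {a A L B W : ℝ} (h : a ≤ A) (h1 : 4 * A * L ≤ W) (h2 : W / 2 ≤ B) (h0 : 0 < L) : 2 * a * L ≤ 1 * B := by
  have : a * L ≤ A * L := mul_le_mul_of_nonneg_right h h0.le
  linarith
lemma n9 {L y N : ℝ} (h : 10 ≤ L) (h1 : L ^ 2 ≤ y) (h2 : y / 2 ≤ N) : 4 * L ≤ 8 * N := by nlinarith
lemma n10 {k W : ℝ} (hk1 : 1 ≤ k) (h : (k + 2) * (k + 1) ≤ W) : k + 1 ≤ W := by nlinarith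
lemma n13 {i δ : ℝ} (hδ0 : 0 < δ) (h : i ≤ 1) : 8 * δ * i ≤ 8 * δ := by nlinarith
lemma n14 {i k δ ε : ℝ} (hδ0 : 0 < δ) (hk : δ ≤ k * δ) (hε : 20 * (k + 1) * δ ≤ ε) (h8 : 8 * δ * i ≤ 8 * δ) :
    -i + (5 * δ + (7 * k + 8) * δ + 8 * δ * i) ≤ -i + ε := by linarith

theorem main2 (k : ℕ) (hk : 1 ≤ k) (ε : ℝ) (hε : 0 < ε) : ∃ κ : ℝ, 0 < κ ∧ ∀ α : Fin k → ℝ,
    (∀ η : ℝ, 0 < η → ∃ c : ℝ, 0 < c ∧ ∀ (n : ℕ) (m : Fin k → ℤ), 1 ≤ n →
      ∃ i, c * (n : ℝ) ^ (-(k : ℝ)⁻¹ - η) ≤ |n * α i - m i|) →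
    ∃ X₀ : ℝ, ∀ X : ℝ, X₀ ≤ X → ∀ (β : Fin k → ℝ) (z : ℕ),
      ∃ (n : ℕ) (m : Fin k → ℤ), z < n ∧ (n : ℝ) ≤ z + 2 * X ∧
        (∀ i, |(n : ℝ) * α i - β i - m i| ≤ X ^ (-(k : ℝ)⁻¹ + ε)) ∧
        ∀ p : ℕ, p.Prime → κ * f X < |(p : ℝ) - n| := by
  have hk0 : (0 : ℝ) < k := by exact_mod_cast hk
  have hk1 : (1 : ℝ) ≤ k := by exact_mod_cast hk
  have hki : 0 < (k : ℝ)⁻¹ := by positivity
  have hki1 : (k : ℝ)⁻¹ ≤ 1 := inv_le_one_of_one_le₀ hk1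
  set δ : ℝ := min ε (1 / 2) / (20 * (k + 1)) with hδ
  have hδ0 : 0 < δ := by
    have : 0 < min ε (1 / 2) := lt_min hε (by norm_num)
    positivity
  have hδm : 20 * (k + 1) * δ = min ε (1 / 2) := by
    rw [hδ]
    field_simp
  have hδε : 20 * (k + 1) * δ ≤ ε := by rw [hδm]; exact min_le_left _ _
  have hδh : 20 * (k + 1) * δ ≤ 1 / 2 := by rw [hδm]; exact min_le_right _ _
  have hkδ : δ ≤ k * δ := le_mul_of_one_le_left hδ0.le hk1
  have hδ1 : δ ≤ 1 / 40 := n2 hk1 hδ0 hδh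
  obtain ⟨c₁, hc₁, x₁, hx₁⟩ := Pool.Agent.Results.MP_3bc45c_nt.RecordGapsAtPrescribedPlaces.result
    (2 * δ) 10 (by linarith) (by linarith) (by norm_num)
  refine ⟨c₁ * Real.exp (-10), by positivity, fun α hα => ?_⟩
  set η : ℝ := δ / (k + 1) with hη
  have hη0 : 0 < η := by positivity
  have hkη : k * η ≤ δ := by
    rw [hη, mul_div_assoc', div_le_iff₀ (by positivity)]
    exact n3 hδ0
  have hηδ : η ≤ δ := by
    rw [hη]
    exact div_le_self hδ0.le (by linarith)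
  obtain ⟨c, hc, hcα⟩ := hα η hη0
  set c' : ℝ := min c 1 with hc'
  have hc'0 : 0 < c' := lt_min hc one_pos
  set C0 : ℝ := (2 * KK (k + 1)) ^ (k + 1) / c' ^ k with hC0
  have hKK : 0 < KK (k + 1) := lt_of_lt_of_le one_pos (one_le_KK (Nat.succ_pos k))
  have hC00 : 0 < C0 := by positivity
  obtain ⟨x₂, hx₂⟩ := eventually_atTop.1 (all_ev2 hδ0 (10 + C0 + (k + 2) * (k + 1) + 2 / c))
  refine ⟨max x₁ x₂, fun X hX β z => ?_⟩
  have hX1 := le_trans (le_max_left _ _) hX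
  obtain ⟨e1, e2, e3, e4, e5, e7⟩ := hx₂ X (le_trans (le_max_right _ _) hX)
  have hX0 : 0 < X := by linarith
  have h2c : 0 < 2 / c := by positivity
  have hkk : 0 < ((k : ℝ) + 2) * (k + 1) := by positivity
  have hXδ1 : 10 ≤ X ^ δ := by linarith
  have hXδC : C0 ≤ X ^ δ := by linarith
  have hXδk : ((k : ℝ) + 2) * (k + 1) ≤ X ^ δ := by linarith
  have hXδc : 2 / c ≤ X ^ δ := by linarith
  have hpow : ∀ s t : ℝ, s ≤ t → X ^ s ≤ X ^ t := fun s t h => Real.rpow_le_rpow_of_exponent_le e2 h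
  have hadd : ∀ s t : ℝ, X ^ s * X ^ t = X ^ (s + t) := fun s t => (Real.rpow_add hX0 s t).symm
  set Q : ℝ := X ^ (1 - 8 * δ) with hQ
  have hQ1 : 1 ≤ Q := Real.one_le_rpow e2 (by linarith)
  have hQ0 : 0 < Q := by linarith
  set R : ℝ := Q ^ (k : ℝ)⁻¹ with hR
  have hR0 : 0 < R := by positivity
  have hRk : R ^ k = Q := Real.rpow_inv_natCast_pow hQ0.le (by omega)
  have hRX : R = X ^ ((1 - 8 * δ) * (k : ℝ)⁻¹) := by
    rw [hR, hQ, ← Real.rpow_mul hX0.le]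
  -- the short vectors
  set l : ℝ := c' * Q ^ (-η) with hl
  have hl0 : 0 < l := by positivity
  obtain ⟨G, hG, hGn⟩ := short α hQ0 hR0 hRk hl0 (fun x hx => low hη0 hc hcα hQ1 x hx)
  set M : ℝ := (2 * KK (k + 1)) ^ (k + 1) / l ^ k with hM
  have hM0 : 0 < M := by positivity
  have hMX : M ≤ X ^ (2 * δ) := by
    have h1 : l ^ k = c' ^ k * Q ^ (-η * k) := by
      rw [hl, mul_pow, Real.rpow_mul hQ0.le, Real.rpow_natCast]
    have h2 : M = C0 * Q ^ (η * k) := by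
      rw [hM, hC0, h1, neg_mul, Real.rpow_neg hQ0.le]
      field_simp
    have h3 : Q ^ (η * k) ≤ X ^ δ := by
      rw [hQ, ← Real.rpow_mul hX0.le]
      refine hpow _ _ ?_
      exact n4 (by rw [mul_comm]; exact hkη) (by positivity) hδ0
    rw [h2]
    calc C0 * Q ^ (η * k) ≤ X ^ δ * X ^ δ := by gcongr
      _ = X ^ (2 * δ) := by rw [hadd]; congr 1; ring
  -- the numbers B and N
  set B : ℕ := ⌊X ^ δ⌋₊ with hB
  have hB1 : 1 ≤ B := Nat.le_floor (by norm_num; linarith)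
  have hBle : (B : ℝ) ≤ X ^ δ := Nat.floor_le (by positivity)
  have hBge : X ^ δ / 2 ≤ B := by
    have := Nat.lt_floor_add_one (X ^ δ)
    rw [← hB] at this
    linarith
  set y : ℝ := y0 X with hy
  have hy100 : 100 ≤ y := n5 e4 e5
  set N : ℕ := ⌊y⌋₊ with hN
  have hN1 : 1 ≤ N := Nat.le_floor (by norm_num; linarith)
  have hNle : (N : ℝ) ≤ y := Nat.floor_le (by linarith)
  have hNge : y / 2 ≤ N := by
    have := Nat.lt_floor_add_one y
    rw [← hN] at this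
    linarith
  obtain ⟨q, U, hq1, hU0, hUn, hqs, hqt⟩ := modulus (forms α Q R) G hG hGn hB1 hN1
  have hq0 : (0 : ℝ) < q := by exact_mod_cast hq1
  have hUW : ‖app (forms α Q R) U‖ ≤ X ^ (4 * δ) := by
    refine hUn.trans ?_
    calc ((k : ℝ) + 2) * B * ((k + 1) * M) = (((k : ℝ) + 2) * (k + 1)) * (B * M) := by ring
      _ ≤ X ^ δ * (X ^ δ * X ^ (2 * δ)) := by gcongr
      _ = X ^ (4 * δ) := by rw [hadd, hadd]; congr 1; ring
  have hqQ : (q : ℝ) ≤ X ^ (1 - 4 * δ) := by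
    have h1 := comp_zero (α := α) (R := R) (x := fun i => ((U i : ℤ) : ℝ)) hQ0 hUW
    simp only [hU0] at h1
    have h2 : |(((q : ℕ) : ℤ) : ℝ)| = q := by
      rw [Int.cast_natCast, abs_of_pos hq0]
    rw [h2] at h1
    refine h1.trans ?_
    rw [hQ, hadd]
    exact hpow _ _ (by linarith)
  have hUe : ∀ a : Fin k, |(q : ℝ) * α a - U a.succ| ≤ X ^ (4 * δ) / R := by
    intro a
    have h1 := comp_succ (α := α) (Q := Q) (x := fun i => ((U i : ℤ) : ℝ)) hR0 hUW a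
    simp only [hU0] at h1
    rwa [Int.cast_natCast] at h1
  -- exponents
  have hWR : X ^ (4 * δ) / R = X ^ (4 * δ - (1 - 8 * δ) * (k : ℝ)⁻¹) := by
    rw [hRX, ← Real.rpow_sub hX0]
  set τ : ℝ := (7 * k + 8) * δ with hτ
  have hτ1 : τ ≤ 1 / 2 := n6 hk1 hδ0 hδh
  have hτ0 : 0 < τ := by positivity
  have hkτ : τ * (k : ℝ)⁻¹ = 7 * δ + 8 * δ * (k : ℝ)⁻¹ := by
    rw [hτ]
    field_simp
  have hqge : X ^ (1 - τ) ≤ q := by
    by_contra hcon
    push Not at hcon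
    obtain ⟨i, hi⟩ := hcα q (fun a => U a.succ) hq1
    have h1 := hi.trans (hUe i)
    rw [hWR] at h1
    have h2 : (X ^ (1 - τ)) ^ (-(k : ℝ)⁻¹ - η) ≤ (q : ℝ) ^ (-(k : ℝ)⁻¹ - η) :=
      Real.rpow_le_rpow_of_nonpos hq0 hcon.le (by linarith)
    rw [← Real.rpow_mul hX0.le] at h2
    have h3 : c * X ^ ((1 - τ) * (-(k : ℝ)⁻¹ - η)) ≤ X ^ (4 * δ - (1 - 8 * δ) * (k : ℝ)⁻¹) :=
      (mul_le_mul_of_nonneg_left h2 hc.le).trans h1
    have h4 : 4 * δ - (1 - 8 * δ) * (k : ℝ)⁻¹ ≤ (1 - τ) * (-(k : ℝ)⁻¹ - η) + (-(2 * δ)) := by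
      have h5 : (1 - τ) * (-(k : ℝ)⁻¹ - η) = -(k : ℝ)⁻¹ - η + (τ * (k : ℝ)⁻¹) + τ * η := by ring
      rw [h5, hkτ]
      exact n7 hηδ (mul_pos hτ0 hη0)
    have h6 := h3.trans (hpow _ _ h4)
    rw [← hadd, mul_comm] at h6
    have h7 : 0 < X ^ ((1 - τ) * (-(k : ℝ)⁻¹ - η)) := by positivity
    have h8 : c ≤ X ^ (-(2 * δ)) := le_of_mul_le_mul_left h6 h7
    have h9 : X ^ (-(2 * δ)) * X ^ (2 * δ) = 1 := by
      rw [hadd]; simp
    have h10 : X ^ δ ≤ X ^ (2 * δ) := hpow _ _ (by linarith)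
    have h11 : c * (2 / c) = 2 := by field_simp
    have h12 : c * (2 / c) ≤ X ^ (-(2 * δ)) * X ^ (2 * δ) := by
      gcongr
      linarith
    linarith
  -- the hypothesis on the prime factors
  have hqX : (q : ℝ) ≤ X := by
    have h2 : X ^ (1 - 4 * δ) ≤ X ^ (1 : ℝ) := hpow _ _ (by linarith)
    rw [Real.rpow_one] at h2
    linarith
  have hlogq : Real.log q ≤ Real.log X := Real.log_le_log hq0 hqX
  have hlogX : 0 ≤ Real.log X := Real.log_nonneg e2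
  have hL2 : 0 < Real.log (Real.log X) := by linarith
  have hbig : 2 * Real.log q / B ≤ 1 / Real.log (Real.log X) := by
    have hB0 : (0 : ℝ) < B := by exact_mod_cast hB1
    rw [div_le_div_iff₀ hB0 hL2]
    exact n8 hlogq e3 hBge hL2
  have hbig1 : 2 * Real.log q / B ≤ 1 := by
    refine hbig.trans ?_
    rw [div_le_one hL2]
    linarith
  have hprimes : (∑ p ∈ q.primeFactors with
      Real.exp (Real.log (Real.log X) * Real.log (Real.log (Real.log (Real.log X))) /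
        (20 * Real.log (Real.log (Real.log X)))) < ((p : ℕ) : ℝ), 1 / ((p : ℕ) : ℝ)) ≤
      10 / Real.log (Real.log X) := by
    have h1 : (∑ p ∈ q.primeFactors with y < ((p : ℕ) : ℝ), 1 / ((p : ℕ) : ℝ)) ≤
        ∑ p ∈ q.primeFactors with N < p, 1 / (p : ℝ) := by
      refine sum_le_sum_of_subset_of_nonneg ?_ (fun _ _ _ => by positivity)
      intro p hp
      rw [mem_filter] at hp ⊢
      refine ⟨hp.1, ?_⟩
      have h2 : (N : ℝ) < p := lt_of_le_of_lt hNle hp.2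
      exact_mod_cast h2
    refine (h1.trans hqs).trans ?_
    have hN0 : (0 : ℝ) < N := by exact_mod_cast hN1
    have h3 : 4 / (N : ℝ) ≤ 8 / Real.log (Real.log X) := by
      rw [div_le_div_iff₀ hN0 hL2]
      exact n9 e4 e5 hNge
    have h4 : 8 / Real.log (Real.log X) + 1 / Real.log (Real.log X) ≤ 10 / Real.log (Real.log X) := by
      rw [← add_div]
      gcongr
      norm_num
    linarith
  -- the start
  have hMQ : (k + 1) * M * Q ≤ X ^ (1 - 5 * δ) := by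
    calc (k + 1) * M * Q ≤ X ^ δ * X ^ (2 * δ) * X ^ (1 - 8 * δ) := by
          gcongr
          exact n10 hk1 hXδk
      _ = X ^ (1 - 5 * δ) := by rw [hadd, hadd]; congr 1; ring
  obtain ⟨Y, hY0, hYe⟩ := startv α hQ0 hR0 G hG hGn β (z + 1 + (k + 1) * M * Q)
  rw [abs_le] at hY0
  have hYz : (z : ℝ) + 1 ≤ Y 0 := by linarith [hY0.2]
  have hYz' : (z : ℤ) + 1 ≤ Y 0 := by exact_mod_cast hYz
  obtain ⟨n₀, hn₀⟩ : ∃ n₀ : ℕ, (n₀ : ℤ) = Y 0 := ⟨(Y 0).toNat, Int.toNat_of_nonneg (by omega)⟩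
  have hn₀R : (n₀ : ℝ) = Y 0 := by exact_mod_cast hn₀
  have hn₀z : z < n₀ := by omega
  have hn₀X : (n₀ : ℝ) ≤ z + X := by
    have h1 : 3 * X ^ (1 - 5 * δ) ≤ X := by
      calc 3 * X ^ (1 - 5 * δ) ≤ X ^ (5 * δ) * X ^ (1 - 5 * δ) := by
            gcongr
            have := hpow δ (5 * δ) (by linarith)
            linarith
        _ = X := by rw [hadd]; norm_num
    have h2 : (1 : ℝ) ≤ X ^ (1 - 5 * δ) := Real.one_le_rpow e2 (by linarith)
    rw [hn₀R]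
    linarith [hY0.1]
  obtain ⟨n, hn1, hn2, hn3, hn4⟩ := hx₁ X hX1 q hq1 (hqQ.trans (hpow _ _ (by linarith))) hprimes n₀ n₀
  obtain ⟨t, ht⟩ : ∃ t : ℕ, n = n₀ + q * t := by
    have h1 : q ∣ n - n₀ := (Nat.modEq_iff_dvd' hn2.le).1 hn1.symm
    obtain ⟨t, ht⟩ := h1
    exact ⟨t, by omega⟩
  have htX : (t : ℝ) ≤ X ^ τ := by
    have h1 : (n : ℝ) = n₀ + q * t := by rw [ht]; push_cast; ring
    have h2 : (q : ℝ) * t ≤ X := by linarith
    have ht0 : (0 : ℝ) ≤ t := Nat.cast_nonneg t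
    have h4 : X ^ (1 - τ) * t ≤ X := by
      calc X ^ (1 - τ) * t ≤ q * t := by gcongr
        _ ≤ X := h2
    have h5 : X = X ^ (1 - τ) * X ^ τ := by
      rw [hadd]
      norm_num
    have h6 : X ^ (1 - τ) * t ≤ X ^ (1 - τ) * X ^ τ := by
      rw [← h5]
      exact h4
    exact le_of_mul_le_mul_left h6 (by positivity)
  refine ⟨n, fun i => Y i.succ + t * U i.succ, by omega, by linarith, ?_, ?_⟩
  · intro i
    have h1 : (n : ℝ) * α i - β i - ((Y i.succ + t * U i.succ : ℤ) : ℝ) =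
        ((Y 0 : ℝ) * α i - β i - Y i.succ) + t * (q * α i - U i.succ) := by
      rw [ht]
      push_cast
      rw [hn₀R]
      ring
    rw [h1]
    have h2 : |(Y 0 : ℝ) * α i - β i - Y i.succ| ≤ X ^ (4 * δ) / R := by
      refine (hYe i).trans ?_
      gcongr
      calc (k + 1) * M ≤ X ^ δ * X ^ (2 * δ) := by
            gcongr
            exact n10 hk1 hXδk
        _ = X ^ (3 * δ) := by rw [hadd]; congr 1; ring
        _ ≤ X ^ (4 * δ) := hpow _ _ (by linarith)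
    have h3 : |(t : ℝ) * (q * α i - U i.succ)| ≤ X ^ τ * (X ^ (4 * δ) / R) := by
      rw [abs_mul, abs_of_nonneg (Nat.cast_nonneg t)]
      have := hUe i
      gcongr
    have h4 : X ^ (4 * δ) / R ≤ X ^ τ * (X ^ (4 * δ) / R) := by
      have h5 : 1 ≤ X ^ τ := Real.one_le_rpow e2 hτ0.le
      have h6 : 0 ≤ X ^ (4 * δ) / R := by positivity
      exact le_mul_of_one_le_left h6 h5
    have h7 : 2 * (X ^ τ * (X ^ (4 * δ) / R)) ≤ X ^ (-(k : ℝ)⁻¹ + ε) := by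
      rw [hWR, hadd]
      calc 2 * X ^ (τ + (4 * δ - (1 - 8 * δ) * (k : ℝ)⁻¹)) ≤ X ^ δ * X ^ (τ + (4 * δ - (1 - 8 * δ) * (k : ℝ)⁻¹)) := by
            gcongr
            linarith
        _ = X ^ (δ + (τ + (4 * δ - (1 - 8 * δ) * (k : ℝ)⁻¹))) := by rw [hadd]
        _ ≤ X ^ (-(k : ℝ)⁻¹ + ε) := by
            refine hpow _ _ ?_
            have h8 : 8 * δ * (k : ℝ)⁻¹ ≤ 8 * δ := n13 hδ0 hki1
            have h9 : δ + (τ + (4 * δ - (1 - 8 * δ) * (k : ℝ)⁻¹)) =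
                -(k : ℝ)⁻¹ + (5 * δ + τ + 8 * δ * (k : ℝ)⁻¹) := by ring
            rw [h9, hτ]
            exact n14 hδ0 hkδ hδε h8
    refine (abs_add_le _ _).trans ?_
    linarith
  · intro p hp
    refine lt_of_le_of_lt ?_ (hn4 p hp)
    have h3 : Real.exp (-10) ≤ (Nat.totient q : ℝ) / q := by
      refine le_trans ?_ hqt
      rw [Real.exp_le_exp]
      linarith
    have h6 : c₁ * Real.exp (-10) * f X = c₁ * (Real.exp (-10) * f X) := by ring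
    rw [h6]
    refine mul_le_mul_of_nonneg_left ?_ hc₁.le
    exact mul_le_mul_of_nonneg_right h3 e7

end Pool.Agent.H661.RG
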