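import Pool.Agent.H661.RG.Avg

set_option autoImplicit false

/-! # Consequences for `φ(q)/q` and for the sum over the prime factors -/

namespace Pool.Agent.H661.RG

open Finset

lemma one_sub_ge {x : ℝ} (h0 : 0 ≤ x) (h1 : x ≤ 1 / 2) : Real.exp (-2 * x) ≤ 1 - x := by
  have h2 : 1 + 2 * x ≤ Real.exp (2 * x) := by
    have := Real.add_one_le_exp (2 * x)
    linarith
  have h3 : 1 ≤ (1 - x) * Real.exp (2 * x) := by
    have h4 : (1 - x) * (1 + 2 * x) ≤ (1 - x) * Real.exp (2 * x) :=
      mul_le_mul_of_nonneg_left h2 (by linarith)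
    nlinarith [mul_nonneg h0 (by linarith : (0 : ℝ) ≤ 1 / 2 - x)]
  have h5 : Real.exp (-2 * x) * Real.exp (2 * x) = 1 := by
    rw [← Real.exp_add]
    simp
  have h6 : 0 < Real.exp (2 * x) := Real.exp_pos _
  have h7 : Real.exp (-2 * x) * Real.exp (2 * x) ≤ (1 - x) * Real.exp (2 * x) := by rw [h5]; exact h3
  exact le_of_mul_le_mul_right h7 h6

lemma totient_ge {q : ℕ} (hq : 1 ≤ q) :
    Real.exp (-2 * ∑ p ∈ q.primeFactors, 1 / (p : ℝ)) ≤ (Nat.totient q : ℝ) / q := by
  have h1 : (Nat.totient q : ℝ) = q * ∏ p ∈ q.primeFactors, (1 - (p : ℝ)⁻¹) := by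
    have h := Nat.totient_eq_mul_prod_factors q
    have h2 : ((Nat.totient q : ℚ) : ℝ) = ((q * ∏ p ∈ q.primeFactors, (1 - (p : ℚ)⁻¹) : ℚ) : ℝ) := by
      rw [h]
    push_cast at h2
    exact h2
  have hq0 : (q : ℝ) ≠ 0 := by positivity
  rw [h1, mul_div_cancel_left₀ _ hq0, mul_sum, Real.exp_sum]
  refine prod_le_prod (fun _ _ => (Real.exp_pos _).le) fun p hp => ?_
  have hp2 : 2 ≤ p := (Nat.prime_of_mem_primeFactors hp).two_le
  have hp2' : (2 : ℝ) ≤ p := by exact_mod_cast hp2
  have h3 := one_sub_ge (x := (p : ℝ)⁻¹) (by positivity) (by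
    rw [inv_le_comm₀ (by positivity) (by norm_num)]
    simpa using hp2')
  simpa [one_div] using h3

lemma card_le {q : ℕ} (hq : 1 ≤ q) : (q.primeFactors.card : ℝ) ≤ 2 * Real.log q := by
  have h1 : 2 ^ q.primeFactors.card ≤ q := by
    calc 2 ^ q.primeFactors.card = ∏ _p ∈ q.primeFactors, 2 := by rw [prod_const]
      _ ≤ ∏ p ∈ q.primeFactors, p :=
        prod_le_prod' fun p hp => (Nat.prime_of_mem_primeFactors hp).two_le
      _ ≤ q := Nat.le_of_dvd hq (Nat.prod_primeFactors_dvd q)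
  have h2 : ((2 : ℝ) ^ q.primeFactors.card) ≤ q := by exact_mod_cast h1
  have h3 := Real.log_le_log (by positivity) h2
  rw [Real.log_pow] at h3
  have h4 := Real.log_two_gt_d9
  have h5 : (0 : ℝ) ≤ q.primeFactors.card := Nat.cast_nonneg _
  nlinarith

/-- There is `b` between `1` and `B` such that `q = q₁ + b q₂` satisfies: `φ(q) / q` is not small,
and the sum of `1 / p` over the prime factors `p > N` is small. -/
theorem exists_good' {q₁ q₂ B N : ℕ} (h : Nat.Coprime q₁ q₂) (hB : 1 ≤ B) (hN : 1 ≤ N) (hq : 1 ≤ q₁) :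
    ∃ b : ℕ, 1 ≤ b ∧ b ≤ B ∧
      ∑ p ∈ (q₁ + b * q₂).primeFactors with N < p, 1 / (p : ℝ) ≤
        4 / N + 2 * Real.log (q₁ + b * q₂ : ℕ) / B ∧
      Real.exp (-2 * (4 + 2 * Real.log (q₁ + b * q₂ : ℕ) / B)) ≤
        (Nat.totient (q₁ + b * q₂) : ℝ) / (q₁ + b * q₂ : ℕ) := by
  obtain ⟨b, hb1, hb2, hb3⟩ := exists_good h hB hN
  refine ⟨b, hb1, hb2, ?_, ?_⟩
  all_goals
    set q := q₁ + b * q₂ with hqd
    have hq1 : 1 ≤ q := by omega
    have hB0 : (0 : ℝ) < B := by exact_mod_cast hB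
    have hN0 : (0 : ℝ) < N := by exact_mod_cast hN
    have hbig : ∑ p ∈ q.primeFactors with B < p, 1 / (p : ℝ) ≤ 2 * Real.log q / B := by
      calc ∑ p ∈ q.primeFactors with B < p, 1 / (p : ℝ) ≤ ∑ p ∈ q.primeFactors with B < p, 1 / (B : ℝ) := by
            refine sum_le_sum fun p hp => ?_
            rw [mem_filter] at hp
            have h7 : (B : ℝ) ≤ p := by exact_mod_cast hp.2.le
            exact one_div_le_one_div_of_le hB0 h7
        _ = ((q.primeFactors.filter (fun p => B < p)).card : ℝ) / B := by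
            rw [sum_const, nsmul_eq_mul]; ring
        _ ≤ (q.primeFactors.card : ℝ) / B := by
            have h8 : ((q.primeFactors.filter (fun p => B < p)).card : ℝ) ≤ q.primeFactors.card := by
              exact_mod_cast card_filter_le _ _
            gcongr
        _ ≤ 2 * Real.log q / B := by
            have := card_le hq1
            gcongr
  · have h9 : ∑ p ∈ q.primeFactors with N < p, 1 / (p : ℝ) ≤
        ∑ p ∈ (Icc 1 B).filter (fun p => (p.Prime ∧ p ∣ q) ∧ N < p), 1 / (p : ℝ) +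
          ∑ p ∈ q.primeFactors with B < p, 1 / (p : ℝ) := by
      rw [← sum_filter_add_sum_filter_not (q.primeFactors.filter (fun p => N < p)) (fun p => p ≤ B)]
      refine add_le_add ?_ ?_
      · refine sum_le_sum_of_subset_of_nonneg ?_ (fun _ _ _ => by positivity)
        intro p hp
        rw [mem_filter, mem_filter, Nat.mem_primeFactors] at hp
        rw [mem_filter, mem_Icc]
        exact ⟨⟨hp.1.1.1.pos, hp.2⟩, ⟨hp.1.1.1, hp.1.1.2.1⟩, hp.1.2⟩
      · refine sum_le_sum_of_subset_of_nonneg ?_ (fun _ _ _ => by positivity)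
        intro p hp
        rw [mem_filter, mem_filter] at hp
        rw [mem_filter]
        exact ⟨hp.1.1, by omega⟩
    have h10 : (N : ℝ) * ∑ p ∈ (Icc 1 B).filter (fun p => (p.Prime ∧ p ∣ q) ∧ N < p), 1 / (p : ℝ) ≤ 4 := by
      refine le_trans ?_ hb3
      rw [mul_sum, ← filter_filter, sum_filter]
      refine sum_le_sum fun p hp => ?_
      unfold w
      split_ifs
      · have : (0 : ℝ) ≤ 1 / p := by positivity
        have h11 : (N : ℝ) * (1 / p) = N / p := by ring
        rw [h11]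
        linarith
      · positivity
    have h12 : ∑ p ∈ (Icc 1 B).filter (fun p => (p.Prime ∧ p ∣ q) ∧ N < p), 1 / (p : ℝ) ≤ 4 / N := by
      rw [le_div_iff₀ hN0]
      linarith
    linarith
  · refine le_trans ?_ (totient_ge hq1)
    rw [Real.exp_le_exp]
    have h9 : ∑ p ∈ q.primeFactors, 1 / (p : ℝ) ≤
        ∑ p ∈ (Icc 1 B).filter (fun p => p.Prime ∧ p ∣ q), 1 / (p : ℝ) +
          ∑ p ∈ q.primeFactors with B < p, 1 / (p : ℝ) := by
      rw [← sum_filter_add_sum_filter_not q.primeFactors (fun p => p ≤ B)]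
      refine add_le_add ?_ ?_
      · refine sum_le_sum_of_subset_of_nonneg ?_ (fun _ _ _ => by positivity)
        intro p hp
        rw [mem_filter, Nat.mem_primeFactors] at hp
        rw [mem_filter, mem_Icc]
        exact ⟨⟨hp.1.1.pos, hp.2⟩, hp.1.1, hp.1.2.1⟩
      · refine sum_le_sum_of_subset_of_nonneg ?_ (fun _ _ _ => by positivity)
        intro p hp
        rw [mem_filter] at hp
        rw [mem_filter]
        exact ⟨hp.1, by omega⟩
    have h10 : ∑ p ∈ (Icc 1 B).filter (fun p => p.Prime ∧ p ∣ q), 1 / (p : ℝ) ≤ 4 := by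
      refine le_trans ?_ hb3
      refine sum_le_sum fun p hp => ?_
      unfold w
      split_ifs
      · have : (0 : ℝ) ≤ (N : ℝ) / p := by positivity
        linarith
      · linarith
    linarith

end Pool.Agent.H661.RG
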